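import Mathlib

/-!
# A spectrahedral cone which is not projectionally exposed

The spectrahedral cone
`K = {(x, y, z, e, g) : [z g; g e] ⪰ 0, x + g ≥ 0, y ≥ 0, z - x ≥ 0, z - y ≥ 0}` in `ℝ⁵`
has the face `F = K ∩ {e = 0}`, a cone over a square, and no projection `P` satisfies `P(K) = F`.
-/

namespace Pool.Agent.Results.MP_55559b_an.NotPExposed

/-- The spectrahedral cone of the symmetric matrices `A 0, …, A (n-1)`. -/
def specCone {n m : ℕ} (A : Fin n → Matrix (Fin m) (Fin m) ℝ) : Set (Fin n → ℝ) :=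
  {x | (∑ i, x i • A i).PosSemidef}

/-- `F` is a face of the closed convex cone `K`: a (nonempty) closed convex subcone of `K` such
that `x, y ∈ K` and `x + y ∈ F` imply `x, y ∈ F`. -/
def IsFace {n : ℕ} (K F : Set (Fin n → ℝ)) : Prop :=
  (0 : Fin n → ℝ) ∈ F ∧ IsClosed F ∧ Convex ℝ F ∧ (∀ c : ℝ, 0 ≤ c → ∀ x ∈ F, c • x ∈ F) ∧ F ⊆ K ∧
    ∀ x ∈ K, ∀ y ∈ K, x + y ∈ F → x ∈ F ∧ y ∈ F

/-- The five matrices of the example. -/
def A : Fin 5 → Matrix (Fin 6) (Fin 6) ℝ :=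
  ![!![0, 0, 0, 0, 0, 0; 0, 0, 0, 0, 0, 0; 0, 0, 1, 0, 0, 0; 0, 0, 0, 0, 0, 0;
       0, 0, 0, 0, -1, 0; 0, 0, 0, 0, 0, 0],
    !![0, 0, 0, 0, 0, 0; 0, 0, 0, 0, 0, 0; 0, 0, 0, 0, 0, 0; 0, 0, 0, 1, 0, 0;
       0, 0, 0, 0, 0, 0; 0, 0, 0, 0, 0, -1],
    !![1, 0, 0, 0, 0, 0; 0, 0, 0, 0, 0, 0; 0, 0, 0, 0, 0, 0; 0, 0, 0, 0, 0, 0;
       0, 0, 0, 0, 1, 0; 0, 0, 0, 0, 0, 1],
    !![0, 0, 0, 0, 0, 0; 0, 1, 0, 0, 0, 0; 0, 0, 0, 0, 0, 0; 0, 0, 0, 0, 0, 0;
       0, 0, 0, 0, 0, 0; 0, 0, 0, 0, 0, 0],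
    !![0, 1, 0, 0, 0, 0; 1, 0, 0, 0, 0, 0; 0, 0, 1, 0, 0, 0; 0, 0, 0, 0, 0, 0;
       0, 0, 0, 0, 0, 0; 0, 0, 0, 0, 0, 0]]

/-- The matrix pencil of the example. -/
lemma sum_A (x : Fin 5 → ℝ) : ∑ i, x i • A i =
    !![x 2, x 4, 0, 0, 0, 0; x 4, x 3, 0, 0, 0, 0; 0, 0, x 0 + x 4, 0, 0, 0;
       0, 0, 0, x 1, 0, 0; 0, 0, 0, 0, x 2 - x 0, 0; 0, 0, 0, 0, 0, x 2 - x 1] := by
  ext i j
  fin_cases i <;> fin_cases j <;> simp [A, Fin.sum_univ_succ, Matrix.add_apply] <;> ring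

lemma mem_iff (x : Fin 5 → ℝ) : x ∈ specCone A ↔
    0 ≤ x 2 ∧ 0 ≤ x 3 ∧ x 4 ^ 2 ≤ x 2 * x 3 ∧ 0 ≤ x 0 + x 4 ∧ 0 ≤ x 1 ∧ 0 ≤ x 2 - x 0
      ∧ 0 ≤ x 2 - x 1 := by
  unfold specCone
  rw [Set.mem_ofPred_eq, sum_A, Matrix.posSemidef_iff_dotProduct_mulVec]
  have hform : ∀ v : Fin 6 → ℝ, star v ⬝ᵥ (Matrix.mulVec
      !![x 2, x 4, 0, 0, 0, 0; x 4, x 3, 0, 0, 0, 0; 0, 0, x 0 + x 4, 0, 0, 0;
       0, 0, 0, x 1, 0, 0; 0, 0, 0, 0, x 2 - x 0, 0; 0, 0, 0, 0, 0, x 2 - x 1] v)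
      = x 2 * v 0 ^ 2 + 2 * x 4 * v 0 * v 1 + x 3 * v 1 ^ 2 + (x 0 + x 4) * v 2 ^ 2
        + x 1 * v 3 ^ 2 + (x 2 - x 0) * v 4 ^ 2 + (x 2 - x 1) * v 5 ^ 2 := by
    intro v
    simp [dotProduct, Matrix.mulVec, Fin.sum_univ_succ]
    ring
  constructor
  · rintro ⟨-, h⟩
    have h' : ∀ v : Fin 6 → ℝ, 0 ≤ x 2 * v 0 ^ 2 + 2 * x 4 * v 0 * v 1 + x 3 * v 1 ^ 2
        + (x 0 + x 4) * v 2 ^ 2 + x 1 * v 3 ^ 2 + (x 2 - x 0) * v 4 ^ 2
        + (x 2 - x 1) * v 5 ^ 2 := fun v => by rw [← hform]; exact h v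
    have h0 := h' ![1, 0, 0, 0, 0, 0]
    have h1 := h' ![0, 1, 0, 0, 0, 0]
    have h2 := h' ![0, 0, 1, 0, 0, 0]
    have h3 := h' ![0, 0, 0, 1, 0, 0]
    have h4 := h' ![0, 0, 0, 0, 1, 0]
    have h5 := h' ![0, 0, 0, 0, 0, 1]
    have h6 : ∀ t : ℝ, 0 ≤ x 2 * (t * t) + 2 * x 4 * t + x 3 := fun t => by
      have := h' ![t, 1, 0, 0, 0, 0]
      simp at this
      linarith
    have h7 := discrim_le_zero h6
    unfold discrim at h7
    simp at h0 h1 h2 h3 h4 h5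
    refine ⟨h0, h1, by nlinarith, h2, h3, ?_, ?_⟩ <;> linarith
  · rintro ⟨h0, h1, h2, h3, h4, h5, h6⟩
    refine ⟨?_, fun v => ?_⟩
    · ext i j
      fin_cases i <;> fin_cases j <;> simp
    · rw [hform]
      have h7 : 0 ≤ x 2 * v 0 ^ 2 + 2 * x 4 * v 0 * v 1 + x 3 * v 1 ^ 2 := by
        rcases eq_or_lt_of_le h0 with h | h
        · have h8 : x 4 = 0 := by
            rw [← h] at h2
            have : x 4 ^ 2 ≤ 0 := by linarith
            exact pow_eq_zero_iff (two_ne_zero) |>.mp (le_antisymm this (sq_nonneg _))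
          rw [← h, h8]
          have : 0 ≤ x 3 * v 1 ^ 2 := by positivity
          linarith
        · have h8 : 0 ≤ x 2 * (x 2 * v 0 ^ 2 + 2 * x 4 * v 0 * v 1 + x 3 * v 1 ^ 2) := by
            have e : x 2 * (x 2 * v 0 ^ 2 + 2 * x 4 * v 0 * v 1 + x 3 * v 1 ^ 2)
                = (x 2 * v 0 + x 4 * v 1) ^ 2 + (x 2 * x 3 - x 4 ^ 2) * v 1 ^ 2 := by ring
            rw [e]
            have : 0 ≤ (x 2 * x 3 - x 4 ^ 2) * v 1 ^ 2 :=
              mul_nonneg (by linarith) (sq_nonneg _)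
            nlinarith [sq_nonneg (x 2 * v 0 + x 4 * v 1)]
          exact nonneg_of_mul_nonneg_right h8 h
      have h8 : 0 ≤ (x 0 + x 4) * v 2 ^ 2 := mul_nonneg h3 (sq_nonneg _)
      have h9 : 0 ≤ x 1 * v 3 ^ 2 := mul_nonneg h4 (sq_nonneg _)
      have h10 : 0 ≤ (x 2 - x 0) * v 4 ^ 2 := mul_nonneg h5 (sq_nonneg _)
      have h11 : 0 ≤ (x 2 - x 1) * v 5 ^ 2 := mul_nonneg h6 (sq_nonneg _)
      linarith

/-- The face `F`: the part of `K` in the hyperplane `e = 0`. -/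
def F : Set (Fin 5 → ℝ) :=
  {x | x 3 = 0 ∧ x 4 = 0 ∧ 0 ≤ x 0 ∧ 0 ≤ x 1 ∧ x 0 ≤ x 2 ∧ x 1 ≤ x 2}

lemma mem_F_iff (x : Fin 5 → ℝ) : x ∈ F ↔ x ∈ specCone A ∧ x 3 = 0 := by
  rw [mem_iff]
  unfold F
  rw [Set.mem_ofPred_eq]
  constructor
  · rintro ⟨h3, h4, h0, h1, h02, h12⟩
    refine ⟨⟨?_, ?_, ?_, ?_, ?_, ?_, ?_⟩, h3⟩
    · linarith
    · linarith
    · rw [h3, h4]; simp
    · linarith
    · linarith
    · linarith
    · linarith
  · rintro ⟨⟨h2, h3, h4, h5, h6, h7, h8⟩, h9⟩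
    have h10 : x 4 = 0 := by
      rw [h9] at h4
      have : x 4 ^ 2 ≤ 0 := by linarith
      exact pow_eq_zero_iff (two_ne_zero) |>.mp (le_antisymm this (sq_nonneg _))
    refine ⟨h9, h10, ?_, ?_, ?_, ?_⟩ <;> linarith

lemma isFace_F : IsFace (specCone A) F := by
  refine ⟨?_, ?_, ?_, ?_, ?_, ?_⟩
  · simp [F]
  · unfold F
    simp only [Set.ofPred_and]
    refine (isClosed_eq (by fun_prop) (by fun_prop)).inter
      ((isClosed_eq (by fun_prop) (by fun_prop)).inter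
      ((isClosed_le (by fun_prop) (by fun_prop)).inter
      ((isClosed_le (by fun_prop) (by fun_prop)).inter
      ((isClosed_le (by fun_prop) (by fun_prop)).inter
      (isClosed_le (by fun_prop) (by fun_prop))))))
  · intro x hx y hy a b ha hb hab
    obtain ⟨h1, h2, h3, h4, h5, h6⟩ := hx
    obtain ⟨k1, k2, k3, k4, k5, k6⟩ := hy
    unfold F
    rw [Set.mem_ofPred_eq]
    simp only [Pi.add_apply, Pi.smul_apply, smul_eq_mul]
    rw [h1, h2, k1, k2]
    refine ⟨by ring, by ring, by positivity, by positivity, ?_, ?_⟩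
    · nlinarith [mul_le_mul_of_nonneg_left h5 ha, mul_le_mul_of_nonneg_left k5 hb]
    · nlinarith [mul_le_mul_of_nonneg_left h6 ha, mul_le_mul_of_nonneg_left k6 hb]
  · intro c hc x hx
    obtain ⟨h1, h2, h3, h4, h5, h6⟩ := hx
    unfold F
    rw [Set.mem_ofPred_eq]
    simp only [Pi.smul_apply, smul_eq_mul]
    rw [h1, h2]
    refine ⟨by ring, by ring, by positivity, by positivity, ?_, ?_⟩
    · exact mul_le_mul_of_nonneg_left h5 hc
    · exact mul_le_mul_of_nonneg_left h6 hc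
  · intro x hx
    exact ((mem_F_iff x).mp hx).1
  · intro x hx y hy hxy
    have h3 := ((mem_F_iff _).mp hxy).2
    rw [Pi.add_apply] at h3
    have hx3 := ((mem_iff x).mp hx).2.1
    have hy3 := ((mem_iff y).mp hy).2.1
    exact ⟨(mem_F_iff x).mpr ⟨hx, by linarith⟩, (mem_F_iff y).mpr ⟨hy, by linarith⟩⟩

/-- If `a t² + b t ≥ 0` for all small `t`, then `b = 0`. -/
lemma eq_zero_of_small {a b : ℝ} (h : ∀ t : ℝ, |t| ≤ 1 / 4 → 0 ≤ a * t ^ 2 + b * t) : b = 0 := by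
  by_contra hb
  set c := |a| + 4 * |b| + 1 with hc
  have hbp : 0 < |b| := abs_pos.mpr hb
  have hcp : 0 < c := by positivity
  have ht : |-(b / c) / 1| ≤ 1 / 4 := by
    rw [div_one, abs_neg, abs_div, abs_of_pos hcp, div_le_iff₀ hcp, hc]
    nlinarith [abs_nonneg a]
  have h1 := h _ ht
  have e : a * (-(b / c) / 1) ^ 2 + b * (-(b / c) / 1) = (b ^ 2 / c ^ 2) * (a - c) := by
    field_simp
    ring
  rw [e] at h1
  have h2 : 0 < b ^ 2 / c ^ 2 := by positivity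
  have h3 : a - c < 0 := by
    have := le_abs_self a
    rw [hc]
    nlinarith
  nlinarith

/-- The projection cannot exist. -/
lemma no_projection (P : (Fin 5 → ℝ) →ₗ[ℝ] (Fin 5 → ℝ)) (hid : ∀ x ∈ F, P x = x)
    (hP : ∀ x ∈ specCone A, P x ∈ F) : False := by
  -- the images of the basis vectors `e` and `g`
  set v := P ![0, 0, 0, 1, 0] with hv
  set w := P ![0, 0, 0, 0, 1] with hw
  -- the values of `P` on the span of `F`
  have e100 : P ![0, 0, 1, 0, 0] = ![0, 0, 1, 0, 0] := hid _ (by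
    unfold F; rw [Set.mem_ofPred_eq]; simp)
  have e101 : P ![1, 0, 1, 0, 0] = ![1, 0, 1, 0, 0] := hid _ (by
    unfold F; rw [Set.mem_ofPred_eq]; simp)
  have e011 : P ![0, 1, 1, 0, 0] = ![0, 1, 1, 0, 0] := hid _ (by
    unfold F; rw [Set.mem_ofPred_eq]; simp)
  have hPgen : ∀ x y z e g : ℝ, P ![x, y, z, e, g]
      = ![x, y, z, 0, 0] + e • v + g • w := by
    intro x y z e g
    have hd : (![x, y, z, e, g] : Fin 5 → ℝ) = (z - x - y) • ![0, 0, 1, 0, 0]
        + x • ![1, 0, 1, 0, 0] + y • ![0, 1, 1, 0, 0]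
        + e • ![0, 0, 0, 1, 0] + g • ![0, 0, 0, 0, 1] := by
      ext i
      fin_cases i <;> simp
      ring
    rw [hd]
    simp only [map_add, map_smul, e100, e101, e011, ← hv, ← hw]
    congr 2
    ext i
    fin_cases i <;> simp
    ring
  -- four families of points of the cone
  have hw0 : w 0 - 1 = 0 := by
    apply eq_zero_of_small (a := v 0)
    intro t ht
    rw [abs_le] at ht
    have hmem : (![-t, 1 / 2, 1, t ^ 2, t] : Fin 5 → ℝ) ∈ specCone A := by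
      rw [mem_iff]
      simp only [Matrix.cons_val]
      refine ⟨by norm_num, by positivity, by nlinarith, by linarith, by norm_num, by linarith,
        by norm_num⟩
    have h := hP _ hmem
    rw [hPgen] at h
    have h' := h.2.2.1
    simp only [Pi.add_apply, Pi.smul_apply, smul_eq_mul, Matrix.cons_val] at h'
    linarith
  have hw1 : w 1 = 0 := by
    apply eq_zero_of_small (a := v 1)
    intro t ht
    rw [abs_le] at ht
    have hmem : (![1 / 2, 0, 1, t ^ 2, t] : Fin 5 → ℝ) ∈ specCone A := by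
      rw [mem_iff]
      simp only [Matrix.cons_val]
      refine ⟨by norm_num, by positivity, by nlinarith, by linarith, by norm_num, by linarith,
        by norm_num⟩
    have h := hP _ hmem
    rw [hPgen] at h
    have h' := h.2.2.2.1
    simp only [Pi.add_apply, Pi.smul_apply, smul_eq_mul, Matrix.cons_val] at h'
    linarith
  have hw2 : w 2 - w 0 = 0 := by
    apply eq_zero_of_small (a := v 2 - v 0)
    intro t ht
    rw [abs_le] at ht
    have hmem : (![1, 1 / 2, 1, t ^ 2, t] : Fin 5 → ℝ) ∈ specCone A := by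
      rw [mem_iff]
      simp only [Matrix.cons_val]
      refine ⟨by norm_num, by positivity, by nlinarith, by linarith, by norm_num, by linarith,
        by norm_num⟩
    have h := hP _ hmem
    rw [hPgen] at h
    have h' := h.2.2.2.2.1
    simp only [Pi.add_apply, Pi.smul_apply, smul_eq_mul, Matrix.cons_val] at h'
    linarith
  have hw3 : w 2 - w 1 = 0 := by
    apply eq_zero_of_small (a := v 2 - v 1)
    intro t ht
    rw [abs_le] at ht
    have hmem : (![1 / 2, 1, 1, t ^ 2, t] : Fin 5 → ℝ) ∈ specCone A := by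
      rw [mem_iff]
      simp only [Matrix.cons_val]
      refine ⟨by norm_num, by positivity, by nlinarith, by linarith, by norm_num, by linarith,
        by norm_num⟩
    have h := hP _ hmem
    rw [hPgen] at h
    have h' := h.2.2.2.2.2
    simp only [Pi.add_apply, Pi.smul_apply, smul_eq_mul, Matrix.cons_val] at h'
    linarith
  linarith

/-- **Theorem.** There is a spectrahedral cone which is not projectionally exposed: there are five
linearly independent symmetric `6 × 6` matrices and a face `F` of the spectrahedral cone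
`K ⊆ ℝ⁵` defined by them such that no projection `P` of `ℝ⁵` satisfies `P(K) = F`. -/
theorem result :
    ∃ (A : Fin 5 → Matrix (Fin 6) (Fin 6) ℝ) (F : Set (Fin 5 → ℝ)),
      (∀ i, (A i).IsSymm) ∧ LinearIndependent ℝ A ∧ IsFace (specCone A) F ∧
      ∀ P : (Fin 5 → ℝ) →ₗ[ℝ] (Fin 5 → ℝ), P ∘ₗ P = P → P '' specCone A ≠ F := by
  refine ⟨A, F, ?_, ?_, isFace_F, ?_⟩
  · intro i
    fin_cases i <;> · ext a b; fin_cases a <;> fin_cases b <;> simp [A]
  · rw [Fintype.linearIndependent_iff]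
    intro g hg
    rw [sum_A] at hg
    have h22 := congrFun (congrFun hg 0) 0
    have h33 := congrFun (congrFun hg 1) 1
    have h01 := congrFun (congrFun hg 0) 1
    have h00 := congrFun (congrFun hg 2) 2
    have h11 := congrFun (congrFun hg 3) 3
    simp at h22 h33 h01 h00 h11
    intro i
    fin_cases i
    · simp; linarith
    · simpa using h11
    · simpa using h22
    · simpa using h33
    · simpa using h01
  · intro P hPP hPF
    apply no_projection P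
    · intro x hx
      rw [← hPF] at hx
      obtain ⟨k, _, rfl⟩ := hx
      exact LinearMap.congr_fun hPP k
    · intro x hx
      rw [← hPF]
      exact ⟨x, hx, rfl⟩

end Pool.Agent.Results.MP_55559b_an.NotPExposed
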